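import Pool.Agent.H.MP_0bf243_co.Main

namespace Pool.Agent.Results.MP_0bf243_co.Extend
open Pool.Agent.H.MP_0bf243_co

theorem result (w : ℤ → ℤ → Option Bool) (i0 j0 : ℤ)
    (h : ∀ i j, w i j ≠ none → i0 ≤ i ∧ i ≤ i0 + 6 ∧ j0 ≤ j ∧ j ≤ j0 + 6) :
    ∃ w' : ℤ → ℤ → Bool, (∀ i j a, w i j = some a → w' i j = a) ∧ RichPlane w' :=
  main w i0 j0 h

end Pool.Agent.Results.MP_0bf243_co.Extend
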